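import Pool.Agent.Helper83.CY.Final

/-!
Two cyclic numbers between consecutive squares (full positive answer to Q1).

A positive integer `m` is cyclic when `gcd (m, phi m) = 1`.  For every `n ≥ 1` there are two
different cyclic numbers strictly between `n ^ 2` and `(n + 1) ^ 2`.
-/

namespace Pool.Agent.Results.MP_1181b9_nt.TwoBetweenSquares

theorem result : ∀ n : ℕ, 1 ≤ n → ∃ c c' : ℕ,
    Nat.Coprime c (Nat.totient c) ∧ Nat.Coprime c' (Nat.totient c') ∧
      n ^ 2 < c ∧ c < c' ∧ c' < (n + 1) ^ 2 :=
  Pool.Agent.Helper83.CY.Final.final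

end Pool.Agent.Results.MP_1181b9_nt.TwoBetweenSquares
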